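import Pool.Agent.H15.SP.Eq

/-! Endless sequences of primes `p_i = ⌊α a_0 a_1 ⋯ a_i⌋` such that half of the small primes split in every field
`ℚ(√-p_i)`. -/

set_option autoImplicit false

namespace Pool.Agent.Results.MP_aaa0df_nt.FieldsAlongPrimeChains
open Finset

/-- the number of the primes `p < y` that split in `ℚ(√d)`: `p` does not divide `d`, and `d` is a square modulo `4p` -/
noncomputable def split (d : ℤ) (y : ℝ) : ℕ :=
  Set.ncard {p : ℕ | p.Prime ∧ (p : ℝ) < y ∧ ¬ ((p : ℤ) ∣ d) ∧ ∃ x : ℤ, (4 * (p : ℤ)) ∣ x ^ 2 - d}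

/-- the number of the primes `p < y` that are inert in `ℚ(√d)`: `d` is not a square modulo `4p` -/
noncomputable def inert (d : ℤ) (y : ℝ) : ℕ :=
  Set.ncard {p : ℕ | p.Prime ∧ (p : ℝ) < y ∧ ¬ ∃ x : ℤ, (4 * (p : ℤ)) ∣ x ^ 2 - d}

/-- the number of the primes `p < y` -/
noncomputable def primes (y : ℝ) : ℕ := Set.ncard {p : ℕ | p.Prime ∧ (p : ℝ) < y}

/-- the threshold of the problem, `(log |d|)² (log log |d|)²` -/
noncomputable def thr (d : ℤ) : ℝ := Real.log |(d : ℝ)| ^ 2 * Real.log (Real.log |(d : ℝ)|) ^ 2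

/-- the discriminant of `ℚ(√-p)`, for a prime `p` -/
def disc (p : ℕ) : ℤ := if p % 4 = 3 then -(p : ℤ) else -(4 * (p : ℤ))

/-- Let `A > 1`, `δ ≥ 0`, `1 / A + 2 δ < 1` and `0 ≤ δ' < 1 / 4`. For all `k` and `B` there are `C` and `x₀` with the following
property. For every `x ≥ x₀` and all but at most `x / (log x)^k` of the integers `m` in `[x, 2 x)` there are a real `α` in
`[m, m + 1)` and primes `a_0, a_1, ...` such that, for all `i`, `a_i ≤ (log (α a_0 ⋯ a_{i-1}))^C`, `p_i = ⌊α a_0 ⋯ a_i⌋` is a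
prime and, `d` being the discriminant of `ℚ(√-p_i)`: the numbers of the split and of the inert primes `< y` differ by at
most `y^(1 - δ)` for all `y` between `(log |d|)^A` and `(log |d|)^B`, and `N(d) = split d (thr d)` differs from half of the
number of all primes `< thr d` by at most `(thr d)^(1 - δ') / 2`. -/
theorem result (k : ℕ) (A B δ δ' : ℝ) (hA : 1 < A) (hδ0 : 0 ≤ δ) (hδ : 1 / A + 2 * δ < 1) (hδ'0 : 0 ≤ δ')
    (hδ' : δ' < 1 / 4) : ∃ (C : ℕ) (x₀ : ℝ),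
    ∀ x : ℕ, x₀ ≤ x → ∃ X : Finset ℕ, (X.card : ℝ) ≤ x / Real.log x ^ k ∧
    ∀ m : ℕ, x ≤ m → m < 2 * x → m ∉ X → ∃ (α : ℝ) (a : ℕ → ℕ), (m : ℝ) ≤ α ∧ α < m + 1 ∧
      (∀ i, (a i).Prime ∧ (a i : ℝ) ≤ Real.log (α * ∏ j ∈ range i, (a j : ℝ)) ^ C) ∧
      ∀ i, (⌊α * ∏ j ∈ range (i + 1), (a j : ℝ)⌋₊).Prime ∧
        ∀ d : ℤ, d = disc ⌊α * ∏ j ∈ range (i + 1), (a j : ℝ)⌋₊ →
          (∀ y : ℝ, Real.log |(d : ℝ)| ^ A ≤ y → y ≤ Real.log |(d : ℝ)| ^ B →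
            |(split d y : ℝ) - inert d y| ≤ y ^ (1 - δ)) ∧
          |2 * (split d (thr d) : ℝ) - primes (thr d)| ≤ thr d ^ (1 - δ') :=
  Pool.Agent.H15.SP.main k A B δ δ' hA hδ0 hδ hδ'0 hδ'

end Pool.Agent.Results.MP_aaa0df_nt.FieldsAlongPrimeChains
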